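import Pool.Agent.H53.CF.Final

namespace Pool.Agent.Results.MP_375bfa_co.CliffordFans

open Pool.Agent.H53.CF

/-- The Charney-Davis inequality for complete simplicial fans whose face ring modulo the linear
forms of the fan has degree one classes `y i` with `∑ y i ^ 2 = 0`, the span of which contains a
strictly positive class on every link of odd rank. -/
theorem result : ∀ (V : Type) [Fintype V] [LinearOrder V] (n N : ℕ) (Δ : Finset V → Prop)
    (u : V → Fin (2 * n) → ℝ) (y : Fin N → V → ℝ) (p : V → Fin (2 * n) → ℝ),
    HomSphere ℝ Δ (2 * n) → CompleteFan Δ u → Weights Δ u y p →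
    0 ≤ (-1 : ℚ) ^ n * omega Δ := by
  intro V _ _ n N Δ u y p hS hfan hW
  exact main_omega hS hfan hW

end Pool.Agent.Results.MP_375bfa_co.CliffordFans
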