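import Pool.Agent.H13.FlagFew

namespace Pool.Agent.Results.MP_375bfa_co.FewVertices

open Pool.Agent.H13

universe u

/-- The Charney-Davis inequality for flag spheres with few vertices: the flag complex on `A` is a
generalized flag sphere of dimension `2 n - 1`, and either it has at most `5 n + 3` vertices, or
each of its join-irreducible join factors that has odd dimension `2 m - 1` at least `3` has at most
`max 13 (6 m)` vertices. -/
theorem result : ∀ (V : Type u) (G : SimpleGraph V) (n : ℕ) (A : Finset V),
    IsFlagSphere G (2 * n) A →
    (A.card ≤ 5 * n + 3 ∨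
      ∀ (m : ℕ) (Q : Finset V), 2 ≤ m → IsJoinFactor G A Q → IsJoinIrreducible G Q →
        IsFlagSphere G (2 * m) Q → Q.card ≤ max 13 (6 * m)) →
    0 ≤ (-1) ^ n * omega G A := by
  classical
  intro V G n A hA h
  rcases h with h | h
  · exact nonneg_of_card_le n A hA h
  · exact nonneg_of_factors n A hA (fun m Q hm h1 h2 h3 => Or.inl (h m Q hm h1 h2 h3))

end Pool.Agent.Results.MP_375bfa_co.FewVertices
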