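import Pool.Agent.H37.CD.Main

namespace Pool.Agent.Results.MP_375bfa_co.LocallyReducible

open Pool.Agent.H37.CD

/-- The Charney-Davis inequality for the flag (mod 2 homology) spheres `A` of dimension `2 n - 1`
with a vanishing certificate, in particular for those in which the link of every simplex with an
odd number of vertices is reducible. -/
theorem result : ∀ (V : Type) [Fintype V] [DecidableEq V] (G : SimpleGraph V) (n : ℕ)
    (A : Finset V), FlagSphere G (2 * n) A →
    (Bnd G (Reducible G) (n + 1) A ∨
      ∀ τ ⊆ A, G.IsClique (τ : Set V) → Odd τ.card → Reducible G (lk G A τ)) →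
    0 ≤ (-1 : ℚ) ^ n * omega G A := by
  intro V _ _ G n A hA hB
  exact main hA hB

end Pool.Agent.Results.MP_375bfa_co.LocallyReducible
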