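import Pool.Agent.H13.FlagFew

namespace Pool.Agent.Results.MP_375bfa_co.NoFarTetrahedron

open Pool.Agent.H13

universe u

/-- The Charney-Davis inequality for generalized flag spheres of dimension `2 n - 1` in which the
link of every simplex with an even number of vertices (less than `2 n`), in particular the whole
sphere, has a vertex `v` such that no four pairwise adjacent vertices of the link are all different
from `v` and not adjacent to `v`. -/
theorem result : ∀ (V : Type u) (G : SimpleGraph V) (n : ℕ) (A : Finset V),
    IsFlagSphere G (2 * n) A →
    (∀ τ ∈ simplicesIn G A, Even τ.card → τ.card < 2 * n →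
      ∃ v ∈ linkOf G A τ, ∀ s ∈ simplicesIn G (farIn G (linkOf G A τ) v), s.card ≠ 4) →
    0 ≤ (-1) ^ n * omega G A := by
  classical
  intro V G n A hA h
  exact nonneg_of_local n A hA (fun τ h1 h2 h3 => Or.inr (h τ h1 h2 h3))

end Pool.Agent.Results.MP_375bfa_co.NoFarTetrahedron
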